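import Mathlib
import Pool.Agent.Work.MP_38c61c_al.Transfer
import Pool.Agent.Work.MP_38c61c_al.Oct.Gen4

/-!
Strong Lefschetz property, with respect to the sum of the variables and for generic
antisymmetric linear forms, of all centrally symmetric `ZMod 2`-homology spheres of dimension
three (`d = 4`).
-/

namespace Pool.Agent.Work.MP_38c61c_al.Kept.ThreeSpheresSLP

open MvPolynomial

variable {V : Type} [Fintype V] [DecidableEq V]

/-- The value at `H` of the boundary modulo 2 of the chain `c` of faces of `Δ`: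
the sum of the values of `c` over all faces `H ∪ {v}` of `Δ` with `v ∉ H`. -/
def bdry (Δ : Finset (Finset V)) (c : Finset V → ZMod 2) (H : Finset V) : ZMod 2 :=
  ∑ v ∈ Finset.univ.filter (fun v => v ∉ H ∧ insert v H ∈ Δ), c (insert v H)

/-- `Δ` is a simplicial complex on the vertex set `V`, with faces of at most `d` vertices, such
that the link of each face `G` (the empty one included) has the reduced homology modulo 2 of a
sphere of dimension `d - 1 - |G|`. (The faces of the link of `G` are here written as the faces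
of `Δ` that contain `G`.) -/
structure HomologySphere (Δ : Finset (Finset V)) (d : ℕ) : Prop where
  empty_mem : ∅ ∈ Δ
  down : ∀ F ∈ Δ, ∀ G, G ⊆ F → G ∈ Δ
  card_le : ∀ F ∈ Δ, F.card ≤ d
  acyclic : ∀ G ∈ Δ, ∀ r, G.card ≤ r → r < d → ∀ c : Finset V → ZMod 2,
    (∀ H ∈ Δ, G ⊆ H → H.card + 1 = r → bdry Δ c H = 0) →
    ∃ b : Finset V → ZMod 2, ∀ F ∈ Δ, G ⊆ F → F.card = r → bdry Δ b F = c F
  top : ∀ G ∈ Δ, ∀ c : Finset V → ZMod 2,
    (∀ H ∈ Δ, G ⊆ H → H.card + 1 = d → bdry Δ c H = 0) ↔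
    ∃ z, ∀ F ∈ Δ, G ⊆ F → F.card = d → c F = z

/-- `α` is a fixed-point-free involution of the vertex set that maps `Δ` to itself and has no
vertex in a common face with its image. -/
structure CentrallySymmetric (Δ : Finset (Finset V)) (α : Equiv.Perm V) : Prop where
  invol : ∀ v, α (α v) = v
  fpf : ∀ v, α v ≠ v
  map_mem : ∀ F ∈ Δ, F.image α ∈ Δ
  no_pair : ∀ F ∈ Δ, ∀ v ∈ F, α v ∉ F

variable {k : Type*} [Field k]

/-- The sum of the Stanley-Reisner ideal of `Δ` and of the ideal generated by the linear forms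
`θ_l`, the sum over `v` of `A l v` times the variable `x_v`. -/
noncomputable def quotIdeal {d : ℕ} (Δ : Finset (Finset V)) (A : Fin d → V → k) :
    Ideal (MvPolynomial V k) :=
  Ideal.span {f | ∃ G : Finset V, G ∉ Δ ∧ f = ∏ v ∈ G, X v} ⊔
    Ideal.span (Set.range (fun l : Fin d => ∑ v, C (A l v) * X v))

/-- The homogeneous part of degree `n` of the quotient by the ideal `J`. -/
noncomputable def piece (J : Ideal (MvPolynomial V k)) (n : ℕ) :
    Submodule k (MvPolynomial V k ⧸ J) :=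
  (homogeneousSubmodule V k n).map (Ideal.Quotient.mkₐ k J).toLinearMap

/-- The quotient by `J` has the strong Lefschetz property with respect to `w`. -/
def HasSLP (J : Ideal (MvPolynomial V k)) (w : MvPolynomial V k) : Prop :=
  ∀ i e : ℕ, 1 ≤ e →
    (∀ x ∈ piece J i, Ideal.Quotient.mk J w ^ e * x = 0 → x = 0) ∨
    (∀ y ∈ piece J (i + e), ∃ x ∈ piece J i, Ideal.Quotient.mk J w ^ e * x = y)

omit [Fintype V] in
theorem exists_half {Δ : Finset (Finset V)} {α : Equiv.Perm V} [Finite V]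
    (hα : CentrallySymmetric Δ α) : ∃ VP : Finset V, ∀ v, v ∈ VP ↔ α v ∉ VP := by
  classical
  have : Fintype V := Fintype.ofFinite V
  let r : V → V → Prop := WellOrderingRel
  refine ⟨Finset.univ.filter (fun v => r v (α v)), ?_⟩
  intro v
  simp only [Finset.mem_filter, Finset.mem_univ, true_and]
  rw [hα.invol]
  constructor
  · intro h h'
    exact asymm (r := r) h h'
  · intro h
    rcases trichotomous_of r v (α v) with h1 | h1 | h1
    · exact h1
    · exact absurd h1.symm (hα.fpf v)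
    · exact absurd h1 h

theorem quotIdeal_eq {d : ℕ} (Δ : Finset (Finset V)) (A : Fin d → V → k) :
    quotIdeal Δ A = CSLef.Jid Δ (CSLef.rowN A) d := by
  unfold quotIdeal CSLef.Jid CSLef.srIdeal
  congr 2
  ext f
  constructor
  · rintro ⟨l, rfl⟩
    refine ⟨l, l.2, ?_⟩
    unfold CSLef.lin CSLef.rowN
    simp only [dif_pos l.2]
  · rintro ⟨l, hl, rfl⟩
    refine ⟨⟨l, hl⟩, ?_⟩
    unfold CSLef.lin CSLef.rowN
    simp only [dif_pos hl]

/-- Let `Δ` be a centrally symmetric three-dimensional homology sphere modulo 2. Then over every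
field of characteristic zero, for generic antisymmetric linear forms `θ_1, …, θ_4`, the quotient
of the Stanley-Reisner ring is zero in degrees above `4` and has the strong Lefschetz property
with respect to the sum of the variables. -/
theorem result {Δ : Finset (Finset V)} {α : Equiv.Perm V}
    (hΔ : HomologySphere Δ 4) (hα : CentrallySymmetric Δ α) [CharZero k] :
    ∃ Φ : MvPolynomial (Fin 4 × V) k,
      (∃ A : Fin 4 → V → k, (∀ l v, A l (α v) = - A l v) ∧
        eval (fun q : Fin 4 × V => A q.1 q.2) Φ ≠ 0) ∧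
      ∀ A : Fin 4 → V → k, (∀ l v, A l (α v) = - A l v) →
        eval (fun q : Fin 4 × V => A q.1 q.2) Φ ≠ 0 →
        (∀ n, 4 < n → piece (quotIdeal Δ A) n = ⊥) ∧
        HasSLP (quotIdeal Δ A) (∑ v, X v) := by
  have hΔ' : CSLef.IsHomSphere Δ 4 :=
    ⟨hΔ.empty_mem, hΔ.down, hΔ.card_le, hΔ.acyclic, hΔ.top⟩
  have hα' : CSLef.IsCS Δ α := ⟨hα.invol, hα.fpf, hα.map_mem, hα.no_pair⟩
  obtain ⟨VP, hvp⟩ := exists_half hα
  obtain ⟨g, hg, H⟩ := CSLef.Oct.bij_of_inj hΔ' hα' hvp (by norm_num)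
    (fun i k hik x hx hw => CSLef.Oct.inj4 hΔ' hα' hvp i k hik x hx hw)
  obtain ⟨Φ, hΦ1, hΦ2⟩ := CSLef.transfer (k := k) hΔ' hα' hvp hg (fun ψ hψ => H ψ hψ)
  refine ⟨Φ, hΦ1, ?_⟩
  intro A hA hne
  obtain ⟨h1, h2⟩ := hΦ2 A hA hne
  rw [quotIdeal_eq]
  refine ⟨?_, fun i e _ => h1 i e⟩
  intro n hn
  rw [eq_bot_iff]
  intro x hx
  obtain ⟨f, hf, rfl⟩ := CSLef.mem_gr.mp hx
  rw [Submodule.mem_bot, Ideal.Quotient.eq_zero_iff_mem]
  exact h2 n hn f hf

end Pool.Agent.Work.MP_38c61c_al.Kept.ThreeSpheresSLP
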